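import Pool.Agent.Helper30.LW.St

/-!
# Project LW (MP_77e955_nt), module FNW: Chinese remainder theorem and sizes
-/

set_option autoImplicit false

noncomputable section

namespace Pool.Agent.Helper44.LW

open Pool.Agent.Helper30.LW
open Finset
open Pool.Agent.Helper93.KN (ff StSieve)
open Pool.Agent.Helper30.PB (StPIP)

/-- the primes `5 ≤ l ≤ x` -/
private def Od (x : ℕ) : Finset ℕ := (Icc 5 x).filter Nat.Prime

private theorem mem_Od (x l : ℕ) : l ∈ Od x ↔ l.Prime ∧ 5 ≤ l ∧ l ≤ x := by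
  unfold Od
  rw [mem_filter, mem_Icc]
  tauto

private theorem crt (x : ℕ) (r : ℕ → ℕ) : ∃ n : ℕ, ∏ l ∈ Od x, l ≤ n ∧ n < 2 * ∏ l ∈ Od x, l ∧
    ∀ l : ℕ, l.Prime → 5 ≤ l → l ≤ x → n ≡ r l [MOD l] := by
  classical
  have hs : ∀ i ∈ Od x, (id i : ℕ) ≠ 0 := fun i hi => ((mem_Od x i).1 hi).1.ne_zero
  have pp : Set.Pairwise (↑(Od x)) (Function.onFun Nat.Coprime (id : ℕ → ℕ)) := by
    intro a ha b hb hab
    exact (Nat.coprime_primes ((mem_Od x a).1 (Finset.mem_coe.1 ha)).1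
      ((mem_Od x b).1 (Finset.mem_coe.1 hb)).1).2 hab
  obtain ⟨k, hk⟩ := Nat.chineseRemainderOfFinset r id (Od x) hs pp
  have hP : 0 < ∏ l ∈ Od x, l := Finset.prod_pos fun i hi => ((mem_Od x i).1 hi).1.pos
  refine ⟨k % (∏ l ∈ Od x, l) + ∏ l ∈ Od x, l, Nat.le_add_left _ _, ?_, ?_⟩
  · have := Nat.mod_lt k hP
    omega
  · intro l hl h2 hlx
    have hm : l ∈ Od x := (mem_Od x l).2 ⟨hl, h2, hlx⟩
    have hd : l ∣ ∏ l ∈ Od x, l := Finset.dvd_prod_of_mem _ hm
    have h1 : k % (∏ l ∈ Od x, l) + ∏ l ∈ Od x, l ≡ k [MOD l] := by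
      have e1 : k % (∏ l ∈ Od x, l) ≡ k [MOD l] := (Nat.mod_modEq k _).of_dvd hd
      have e2 : ∏ l ∈ Od x, l ≡ 0 [MOD l] := (Nat.modEq_zero_iff_dvd).2 hd
      simpa using e1.add e2
    exact h1.trans (hk l hm)

private theorem Od_le (x : ℕ) : ∏ l ∈ Od x, l ≤ 4 ^ x := by
  refine le_trans ?_ (primorial_le_four_pow x)
  unfold primorial
  apply Finset.prod_le_prod_of_subset_of_one_le'
  · intro l hl
    obtain ⟨h1, _, h3⟩ := (mem_Od x l).1 hl
    rw [mem_filter, mem_range]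
    exact ⟨by omega, h1⟩
  · intro l hl _
    rw [mem_filter] at hl
    exact hl.2.one_lt.le

private theorem Od_ge (x : ℕ) (hx : 10 ≤ x) (S : Finset ℕ)
    (hS : ∀ l ∈ S, l.Prime ∧ x / 2 < l ∧ l ≤ x) :
    (S.card : ℝ) * Real.log ((x : ℝ) / 2) ≤ Real.log ((∏ l ∈ Od x, l : ℕ) : ℝ) := by
  have hsub : S ⊆ Od x := by
    intro l hl
    obtain ⟨h1, h2, h3⟩ := hS l hl
    rw [mem_Od]
    exact ⟨h1, by omega, h3⟩
  rw [Nat.cast_prod, Real.log_prod]
  · calc (S.card : ℝ) * Real.log ((x : ℝ) / 2) = ∑ _l ∈ S, Real.log ((x : ℝ) / 2) := by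
          rw [Finset.sum_const, nsmul_eq_mul]
      _ ≤ ∑ l ∈ S, Real.log (l : ℝ) := by
          apply Finset.sum_le_sum
          intro l hl
          obtain ⟨h1, h2, h3⟩ := hS l hl
          apply Real.log_le_log
          · have : (10 : ℝ) ≤ x := by exact_mod_cast hx
            linarith
          · have h4 : x ≤ 2 * l := by omega
            have h5 : (x : ℝ) ≤ 2 * l := by exact_mod_cast h4
            linarith
      _ ≤ ∑ l ∈ Od x, Real.log (l : ℝ) := by
          apply Finset.sum_le_sum_of_subset_of_nonneg hsub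
          intro l _ _
          exact Real.log_natCast_nonneg l
  · intro l hl
    have := ((mem_Od x l).1 hl).1.ne_zero
    exact_mod_cast this

/-- all conditions on `x` hold for large `x` -/
private theorem large (c₁ : ℝ) (hc : 0 < c₁) (a b : ℕ) : ∃ x : ℕ, a ≤ x ∧ b ≤ x ∧ 10 ≤ x ∧
    1 ≤ c₁ * Real.log x ∧ 2 * Real.log 32 ≤ Real.log x ∧ 64 * Real.log x + 32 ≤ (x : ℝ) := by
  have hlog : Filter.Tendsto (fun x : ℕ => Real.log (x : ℝ)) Filter.atTop Filter.atTop :=
    Real.tendsto_log_atTop.comp tendsto_natCast_atTop_atTop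
  have e1 : ∀ᶠ x : ℕ in Filter.atTop, a ≤ x := Filter.eventually_ge_atTop a
  have e2 : ∀ᶠ x : ℕ in Filter.atTop, b ≤ x := Filter.eventually_ge_atTop b
  have e3 : ∀ᶠ x : ℕ in Filter.atTop, 10 ≤ x := Filter.eventually_ge_atTop 10
  have e4 : ∀ᶠ x : ℕ in Filter.atTop, 1 / c₁ ≤ Real.log x := hlog.eventually_ge_atTop _
  have e5 : ∀ᶠ x : ℕ in Filter.atTop, 2 * Real.log 32 ≤ Real.log x := hlog.eventually_ge_atTop _
  have e8 : ∀ᶠ x : ℕ in Filter.atTop, 64 * Real.log x + 32 ≤ (x : ℝ) := by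
    have h := (Real.isLittleO_log_id_atTop).bound (c := 1 / 128) (by norm_num)
    have h' := tendsto_natCast_atTop_atTop (R := ℝ) |>.eventually h
    filter_upwards [h', Filter.eventually_ge_atTop 64] with x hx h64
    have hx0 : (0 : ℝ) ≤ x := Nat.cast_nonneg x
    rw [Real.norm_eq_abs, Real.norm_eq_abs, abs_of_nonneg (Real.log_natCast_nonneg x)] at hx
    simp only [id] at hx
    rw [abs_of_nonneg hx0] at hx
    have h65 : (64 : ℝ) ≤ x := by exact_mod_cast h64
    linarith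
  obtain ⟨x, h1, h2, h3, h4, h5, h8⟩ :=
    (e1.and (e2.and (e3.and (e4.and (e5.and e8))))).exists
  refine ⟨x, h1, h2, h3, ?_, h5, h8⟩
  rw [div_le_iff₀ hc] at h4
  linarith

/-- the greedy choice -/
private theorem greedy (S : Finset ℕ) (B : ℕ → ℕ → Prop) (T : Finset ℕ) :
    (∀ k ∈ T, ∀ l ∈ S, ∀ l' ∈ S, B k l → B k l' → l = l') → T.card + 1 ≤ S.card →
    ∃ f : ℕ → ℕ, (∀ k ∈ T, f k ∈ S ∧ ¬ B k (f k)) ∧ Set.InjOn f T := by
  classical
  induction T using Finset.induction_on with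
  | empty => exact fun _ _ => ⟨id, by simp, by simp⟩
  | insert k T hk ih =>
    intro hB hc
    rw [card_insert_of_notMem hk] at hc
    obtain ⟨f, hf1, hf2⟩ := ih (fun k' hk' => hB k' (mem_insert_of_mem hk')) (by omega)
    have hbad : (S.filter (fun l => B k l)).card ≤ 1 := by
      rw [card_le_one]
      intro l hl l' hl'
      rw [mem_filter] at hl hl'
      exact hB k (mem_insert_self k T) l hl.1 l' hl'.1 hl.2 hl'.2
    have h1 : ((T.image f) ∪ S.filter (fun l => B k l)).card < S.card := by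
      have a := card_union_le (T.image f) (S.filter (fun l => B k l))
      have b : (T.image f).card ≤ T.card := card_image_le
      omega
    obtain ⟨l, hl1, hl2⟩ := exists_mem_notMem_of_card_lt_card h1
    rw [mem_union, not_or, mem_filter, not_and, mem_image] at hl2
    refine ⟨Function.update f k l, ?_, ?_⟩
    · intro k' hk'
      by_cases h : k' = k
      · subst h
        rw [Function.update_self]
        exact ⟨hl1, hl2.2 hl1⟩
      · rw [Function.update_of_ne h]
        exact hf1 k' ((mem_insert.1 hk').resolve_left h)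
    · intro a ha b hb hab
      rw [mem_coe, mem_insert] at ha hb
      by_cases h : a = k
      · by_cases h' : b = k
        · rw [h, h']
        · exfalso
          rw [h, Function.update_self, Function.update_of_ne h'] at hab
          exact hl2.1 ⟨b, hb.resolve_left h', hab.symm⟩
      · by_cases h' : b = k
        · exfalso
          rw [h', Function.update_self, Function.update_of_ne h] at hab
          exact hl2.1 ⟨a, ha.resolve_left h, hab⟩
        · rw [Function.update_of_ne h, Function.update_of_ne h'] at hab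
          exact hf2 (ha.resolve_left h) (hb.resolve_left h') hab

theorem hFNW (hS : StSRW) (hP : StPIP) : StFNW := by
  classical
  obtain ⟨C, hC, hSur⟩ := hS
  obtain ⟨Y₀, hPr⟩ := hP 1 le_rfl
  set c₁ : ℝ := min 1 (1 / (32 * C)) with hc₁
  have hc0 : 0 < c₁ := lt_min one_pos (by positivity)
  have hc1 : c₁ ≤ 1 := min_le_left _ _
  have hc2 : C * c₁ ≤ 1 / 32 := by
    have := min_le_right 1 (1 / (32 * C))
    calc C * c₁ ≤ C * (1 / (32 * C)) := mul_le_mul_of_nonneg_left this hC.le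
      _ = 1 / 32 := by field_simp
  refine ⟨c₁ / 4, by positivity, fun n₀ => ?_⟩
  obtain ⟨x, hxY, hx2, hx6, hx3, hx4, hx8⟩ := large c₁ hc0 Y₀ n₀
  set L : ℝ := Real.log x with hL
  have hx10 : (10 : ℝ) ≤ x := by exact_mod_cast hx6
  have hx0 : (0 : ℝ) < x := by linarith
  have hl32 : 1 ≤ Real.log 32 := by
    have h1 : Real.log 32 = 5 * Real.log 2 := by
      rw [show (32 : ℝ) = 2 ^ (5 : ℕ) by norm_num, Real.log_pow]
      norm_num
    have := Real.log_two_gt_d9
    rw [h1]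
    linarith
  have hL1 : 1 < L := by linarith
  have hL0 : 0 < L := by linarith
  set K : ℕ := ⌊c₁ * (x * L)⌋₊ with hK
  have hA0 : 0 < x * L := by positivity
  have hKle : (K : ℝ) ≤ c₁ * (x * L) := Nat.floor_le (by positivity)
  have hKle' : (K : ℝ) ≤ x * L := hKle.trans (by nlinarith)
  have hxK : x ≤ K := by
    apply Nat.le_floor
    calc (x : ℝ) = x * 1 := by ring
      _ ≤ x * (c₁ * L) := mul_le_mul_of_nonneg_left hx3 hx0.le
      _ = c₁ * (x * L) := by ring
  have hK4 : (4 : ℝ) * K < (x : ℝ) ^ 2 := by nlinarith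
  have hK4' : 4 * K < x ^ 2 := by exact_mod_cast hK4
  have hcard := hSur x K (by omega) (by omega) (by omega)
  -- the primes in `(x / 2, x]`
  set S : Finset ℕ := (Ioc (x / 2) x).filter (fun P => P.Prime ∧ P % 1 = 1 % 1) with hSdef
  have hSc : (x : ℝ) / (16 * L) ≤ (S.card : ℝ) := by
    have := hPr (x / 2) x 1 hxY (by omega) (Nat.coprime_one_left 1)
    simpa using this
  have hSm : ∀ l ∈ S, l.Prime ∧ x / 2 < l ∧ l ≤ x := by
    intro l hl
    rw [hSdef, mem_filter, mem_Ioc] at hl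
    exact ⟨hl.2.1, hl.1.1, hl.1.2⟩
  have hLK : L ≤ Real.log K := by
    rw [hL]
    exact Real.log_le_log hx0 (by exact_mod_cast hxK)
  have hle : (Sw x K).card + 1 ≤ S.card := by
    have h1 : ((Sw x K).card : ℝ) + 1 ≤ (x : ℝ) / (16 * L) := by
      have h2 : ((Sw x K).card : ℝ) ≤ 1 / 32 * (x / L) := by
        calc ((Sw x K).card : ℝ) ≤ C * (K / Real.log K ^ 2) := hcard
          _ ≤ C * (c₁ * (x * L) / L ^ 2) := by gcongr
          _ = (C * c₁) * (x / L) := by
              field_simp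
          _ ≤ 1 / 32 * (x / L) := mul_le_mul_of_nonneg_right hc2 (by positivity)
      have h3 : (64 : ℝ) ≤ x / L := by
        rw [le_div_iff₀ hL0]
        linarith
      have h4 : (x : ℝ) / (16 * L) = 1 / 16 * (x / L) := by
        field_simp
      rw [h4]
      linarith
    exact_mod_cast h1.trans hSc
  have hbad : ∀ k ∈ Sw x K, ∀ l ∈ S, ∀ l' ∈ S, l ∣ k → l' ∣ k → l = l' := by
    intro k hk l hl l' hl' h1 h2
    by_contra hne
    obtain ⟨p1, p2, p3⟩ := hSm l hl
    obtain ⟨q1, q2, q3⟩ := hSm l' hl'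
    have hco : Nat.Coprime l l' := (Nat.coprime_primes p1 q1).2 hne
    have hd : l * l' ∣ k := hco.mul_dvd_of_dvd_of_dvd h1 h2
    unfold Sw at hk
    rw [mem_filter, mem_Icc] at hk
    have h3 := Nat.le_of_dvd (by omega) hd
    have h4 : x ≤ 2 * l := by omega
    have h5 : x ≤ 2 * l' := by omega
    have h6 := Nat.mul_le_mul h4 h5
    nlinarith [hk.1.2]
  obtain ⟨f, hf1, hf2⟩ := greedy S (fun k l => l ∣ k) (Sw x K) hbad hle
  -- the residues
  have hres : ∀ k ∈ Sw x K, ∃ i : ℕ, k * i ≡ 1 [MOD (f k)] := by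
    intro k hk
    obtain ⟨h1, h2⟩ := hf1 k hk
    have hp := (hSm _ h1).1
    have hco : Nat.Coprime k (f k) := ((Nat.Prime.coprime_iff_not_dvd hp).2 h2).symm
    obtain ⟨i, -, hi⟩ := Nat.exists_mul_mod_eq_one_of_coprime hco hp.one_lt
    refine ⟨i, ?_⟩
    unfold Nat.ModEq
    rw [hi, Nat.mod_eq_of_lt hp.one_lt]
  choose! inv hinv using hres
  let r : ℕ → ℕ := fun l => if h : ∃ k ∈ Sw x K, f k = l then h.choose + inv h.choose
    else 5 * ((l + 1) / 2)
  have hr1 : ∀ k ∈ Sw x K, r (f k) = k + inv k := by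
    intro k hk
    have h : ∃ k' ∈ Sw x K, f k' = f k := ⟨k, hk, rfl⟩
    have e : h.choose = k := hf2 h.choose_spec.1 hk h.choose_spec.2
    simp only [r, h, dif_pos]
    rw [e]
  have hr2 : ∀ l : ℕ, 2 * l ≤ x → r l = 5 * ((l + 1) / 2) := by
    intro l hl
    have h : ¬ ∃ k ∈ Sw x K, f k = l := by
      rintro ⟨k, hk, rfl⟩
      have := (hSm _ (hf1 k hk).1).2.1
      omega
    simp only [r, h, dif_neg, not_false_eq_true]
  obtain ⟨n, hn1, hn2, hn3⟩ := crt x r
  set P : ℕ := ∏ l ∈ Od x, l with hPdef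
  have hP0 : 0 < P := Finset.prod_pos fun i hi => ((mem_Od x i).1 hi).1.pos
  have hP0' : (0 : ℝ) < P := by exact_mod_cast hP0
  have hn0 : 0 < n := lt_of_lt_of_le hP0 hn1
  have hn0' : (0 : ℝ) < n := by exact_mod_cast hn0
  -- lower bound for `log n`
  have hlogP : (x : ℝ) / 32 ≤ Real.log P := by
    have h1 := Od_ge x hx6 S hSm
    rw [← hPdef] at h1
    have h2 : L / 2 ≤ Real.log ((x : ℝ) / 2) := by
      rw [Real.log_div hx0.ne' two_ne_zero]
      have h3 : Real.log 2 ≤ Real.log 32 := Real.log_le_log two_pos (by norm_num)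
      linarith
    calc (x : ℝ) / 32 = (x : ℝ) / (16 * L) * (L / 2) := by field_simp; norm_num
      _ ≤ (S.card : ℝ) * Real.log ((x : ℝ) / 2) :=
          mul_le_mul hSc h2 (by positivity) (Nat.cast_nonneg _)
      _ ≤ Real.log P := h1
  have hlogn1 : (x : ℝ) / 32 ≤ Real.log n :=
    hlogP.trans (Real.log_le_log hP0' (by exact_mod_cast hn1))
  have hlogn2 : Real.log n ≤ 2 * x := by
    have h1 : (n : ℝ) ≤ 2 * 4 ^ x := by
      have : n ≤ 2 * 4 ^ x := hn2.le.trans (Nat.mul_le_mul_left 2 (Od_le x))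
      exact_mod_cast this
    have h2 := Real.log_le_log hn0' h1
    rw [Real.log_mul two_ne_zero (by positivity), Real.log_pow,
      show (4 : ℝ) = 2 ^ 2 by norm_num, Real.log_pow] at h2
    have h3 := Real.log_two_lt_d9
    push_cast at h2
    nlinarith
  have hxn : x ^ 2 ≤ n := by
    have h1 : Real.log ((x : ℝ) ^ 2) ≤ Real.log n := by
      rw [Real.log_pow, ← hL]
      push_cast
      linarith
    have h2 := (Real.log_le_log_iff (by positivity) hn0').1 h1
    exact_mod_cast h2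
  refine ⟨n, by nlinarith, ?_⟩
  intro k hk0 hk
  -- sizes
  have hln0 : 0 < Real.log n := lt_of_lt_of_le (by positivity) hlogn1
  have hlln1 : 0 ≤ Real.log (Real.log n) := by
    apply Real.log_nonneg
    linarith
  have hlln2 : Real.log (Real.log n) ≤ 2 * L := by
    have h1 := Real.log_le_log hln0 hlogn2
    rw [Real.log_mul two_ne_zero hx0.ne', ← hL] at h1
    have h3 : Real.log 2 ≤ Real.log 32 := Real.log_le_log two_pos (by norm_num)
    linarith
  have hkK : k ≤ K := by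
    apply Nat.le_floor
    calc (k : ℝ) ≤ c₁ / 4 * (Real.log n * Real.log (Real.log n)) := hk
      _ ≤ c₁ / 4 * ((2 * x) * (2 * L)) := by gcongr
      _ = c₁ * (x * L) := by ring
  have h2k : 2 * k ≤ n := by omega
  refine ⟨h2k, ?_⟩
  -- the number and its size
  have hbig : x < k * (n - k) - 1 := by
    have h1 : n - k ≤ k * (n - k) := Nat.le_mul_of_pos_left _ hk0
    have h2 : 10 * x ≤ x ^ 2 := by nlinarith
    omega
  have hcast : ((k * (n - k) - 1 : ℕ) : ℤ) = (k : ℤ) * ((n : ℤ) - k) - 1 := by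
    rw [Nat.cast_sub (by omega), Nat.cast_mul, Nat.cast_sub (by omega)]
    norm_num
  have key : ∀ l : ℕ, l.Prime → l ≤ x → (l : ℤ) ∣ (k : ℤ) * ((n : ℤ) - k) - 1 →
      ¬ (k * (n - k) - 1).Prime := by
    intro l hl hlx hd hpr
    rw [← hcast] at hd
    have hd' : l ∣ k * (n - k) - 1 := by exact_mod_cast hd
    have := (Nat.prime_dvd_prime_iff_eq hl hpr).1 hd'
    omega
  by_cases hkS : k ∈ Sw x K
  · obtain ⟨h1, h2⟩ := hf1 k hkS
    obtain ⟨p1, p2, p3⟩ := hSm _ h1
    refine key (f k) p1 p3 ?_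
    have h3 := hn3 (f k) p1 (by omega) p3
    rw [hr1 k hkS] at h3
    have h4 := hinv k hkS
    have h5 : ((f k : ℕ) : ℤ) ∣ (n : ℤ) - (k + inv k) := by
      have := (Nat.modEq_iff_dvd.1 h3.symm)
      push_cast at this
      exact this
    have h6 : ((f k : ℕ) : ℤ) ∣ (k : ℤ) * inv k - 1 := by
      have := (Nat.modEq_iff_dvd.1 h4.symm)
      push_cast at this
      exact this
    have e : (k : ℤ) * ((n : ℤ) - k) - 1 = k * ((n : ℤ) - (k + inv k)) + ((k : ℤ) * inv k - 1) := by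
      ring
    rw [e]
    exact dvd_add (Dvd.dvd.mul_left h5 _) h6
  · unfold Sw at hkS
    rw [mem_filter] at hkS
    have h0 : k ∈ Icc 1 K := mem_Icc.2 ⟨hk0, hkK⟩
    have h1 : ∃ l : ℕ, l.Prime ∧ 5 ≤ l ∧ 2 * l ≤ x ∧
        (l : ℤ) ∣ (2 * (k : ℤ) - 1) * ((k : ℤ) - 2) := by
      by_contra hcon
      apply hkS
      refine ⟨h0, ?_⟩
      intro l hl hl2 hlx hc
      exact hcon ⟨l, hl, hl2, hlx, hc⟩
    obtain ⟨l, hl, hl5, hlx, hc⟩ := h1
    refine key l hl (by omega) ?_
    have h2 := hn3 l hl hl5 (by omega)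
    rw [hr2 l hlx] at h2
    have h3 : (l : ℤ) ∣ 2 * (n : ℤ) - 5 := by
      have h4 : 2 * n ≡ 2 * (5 * ((l + 1) / 2)) [MOD l] := h2.mul_left 2
      obtain ⟨t, ht⟩ := hl.odd_of_ne_two (by omega)
      have h5 : 2 * (5 * ((l + 1) / 2)) = 5 * l + 5 := by
        have : (l + 1) / 2 = t + 1 := by omega
        rw [this, ht]
        ring
      rw [h5] at h4
      have h6 := (Nat.modEq_iff_dvd.1 h4.symm)
      push_cast at h6
      have e : 2 * (n : ℤ) - 5 = (2 * (n : ℤ) - (5 * l + 5)) + l * 5 := by ring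
      rw [e]
      exact dvd_add h6 (dvd_mul_right _ _)
    have h4 : (l : ℤ) ∣ 2 * ((k : ℤ) * ((n : ℤ) - k) - 1) := by
      have e : 2 * ((k : ℤ) * ((n : ℤ) - k) - 1) =
          k * (2 * (n : ℤ) - 5) - (2 * (k : ℤ) - 1) * ((k : ℤ) - 2) := by ring
      rw [e]
      exact dvd_sub (Dvd.dvd.mul_left h3 _) hc
    have h5 : IsCoprime (l : ℤ) 2 := by
      have : Nat.Coprime l 2 := (Nat.coprime_primes hl Nat.prime_two).2 (by omega)
      exact_mod_cast Nat.isCoprime_iff_coprime.2 this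
    exact h5.dvd_of_dvd_mul_left h4

end Pool.Agent.Helper44.LW
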