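import Pool.Agent.Helper69.LW.Basic

/-!
# MP_687a20_mp, module TR : trial functions
-/

open MeasureTheory Set Filter Topology
open scoped ContDiff

namespace LeakyWire

variable {f u w : ℝ × ℝ → ℝ}

namespace TR end TR

open TR

/-! ### Helpers -/

theorem TR.tens_test {g φ : ℝ → ℝ} (hg : ContDiff ℝ ∞ g) (hgc : HasCompactSupport g)
    (hφ : ContDiff ℝ ∞ φ) (hφc : HasCompactSupport φ) :
    Test (fun p : ℝ × ℝ => g p.1 * φ p.2) := by
  refine ⟨(hg.comp contDiff_fst).mul (hφ.comp contDiff_snd), ?_⟩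
  refine HasCompactSupport.intro (hgc.isCompact.prod hφc.isCompact) fun p hp => ?_
  rw [mem_prod, not_and_or] at hp
  rcases hp with hp | hp
  · rw [image_eq_zero_of_notMem_tsupport hp, zero_mul]
  · rw [image_eq_zero_of_notMem_tsupport hp, mul_zero]

theorem TR.tens_int {a c : ℝ → ℝ} (h : Nice fun p : ℝ × ℝ => a p.1 * c p.2) :
    ∫ p in hp, a p.1 * c p.2 = (∫ s in Ioi (0 : ℝ), a s) * ∫ t, c t := by
  rw [h.fubini]
  simp only
  rw [← integral_mul_const]
  exact integral_congr_ae (Eventually.of_forall fun s => integral_const_mul _ _)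

theorem TR.odd_int {c : ℝ → ℝ} (h : ∀ t, c (-t) = -c t) : ∫ t, c t = 0 := by
  have h1 : ∫ t, c (-t) = ∫ t, c t := integral_neg_eq_self c volume
  have h2 : ∫ t, c (-t) = -∫ t, c t := by
    rw [← integral_neg]
    exact integral_congr_ae (Eventually.of_forall h)
  linarith

theorem TR.odd_hp (hf : Nice f) (h : ∀ s t, f (s, -t) = -f (s, t)) : ∫ p in hp, f p = 0 := by
  rw [hf.fubini]
  have : ∀ s, ∫ t, f (s, t) = 0 := fun s => odd_int (h s)
  simp [this]

/-- the half line integration by parts -/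
theorem TR.parts_Ioi {a c a' c' : ℝ → ℝ} (ha : ∀ x, HasDerivAt a (a' x) x)
    (hc : ∀ x, HasDerivAt c (c' x) x) (hac : HasCompactSupport a) (ha'c : Continuous a')
    (hc'c : Continuous c') :
    ∫ s in Ioi (0 : ℝ), a s * c' s = -(a 0 * c 0) - ∫ s in Ioi (0 : ℝ), a' s * c s := by
  have hca : Continuous a := continuous_iff_continuousAt.2 fun x => (ha x).continuousAt
  have hcc : Continuous c := continuous_iff_continuousAt.2 fun x => (hc x).continuousAt
  have ha'e : a' = deriv a := by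
    funext x
    exact (ha x).deriv.symm
  have ha's : HasCompactSupport a' := by
    rw [ha'e]
    exact hac.deriv
  have i1 : Integrable (fun s => a s * c' s) :=
    (hca.mul hc'c).integrable_of_hasCompactSupport hac.mul_right
  have i2 : Integrable (fun s => a' s * c s) :=
    (ha'c.mul hcc).integrable_of_hasCompactSupport ha's.mul_right
  have hd : ∀ x ∈ Ioi (0 : ℝ), HasDerivAt (fun s => a s * c s) (a' x * c x + a x * c' x) x :=
    fun x _ => (ha x).mul (hc x)
  have ht : Tendsto (fun s => a s * c s) atTop (𝓝 0) := by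
    have hcs : HasCompactSupport (fun s => a s * c s) := hac.mul_right
    obtain ⟨L, hL⟩ := hcs.isCompact.isBounded.exists_norm_le
    refine tendsto_const_nhds.congr' ?_
    filter_upwards [eventually_gt_atTop (max L 0)] with x hx
    symm
    apply image_eq_zero_of_notMem_tsupport (f := fun s => a s * c s)
    intro hx'
    have := hL x hx'
    rw [Real.norm_eq_abs] at this
    have h3 : x ≤ |x| := le_abs_self x
    linarith [le_max_left L 0]
  have h1 := integral_Ioi_of_hasDerivAt_of_tendsto (f := fun s => a s * c s)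
    (f' := fun x => a' x * c x + a x * c' x) (a := 0) (m := 0)
    (hca.mul hcc).continuousWithinAt hd (i2.add i1).integrableOn ht
  rw [integral_add i2.integrableOn i1.integrableOn] at h1
  linarith

/-- integration by parts on the line -/
theorem TR.parts_line {a c a' c' : ℝ → ℝ} (ha : ∀ x, HasDerivAt a (a' x) x)
    (hc : ∀ x, HasDerivAt c (c' x) x) (hac : HasCompactSupport a) (ha'c : Continuous a')
    (hc'c : Continuous c') :
    ∫ s, a s * c' s = -∫ s, a' s * c s := by
  have hca : Continuous a := continuous_iff_continuousAt.2 fun x => (ha x).continuousAt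
  have hcc : Continuous c := continuous_iff_continuousAt.2 fun x => (hc x).continuousAt
  have ha'e : a' = deriv a := by
    funext x
    exact (ha x).deriv.symm
  have ha's : HasCompactSupport a' := by
    rw [ha'e]
    exact hac.deriv
  have i1 : Integrable (fun s => a s * c' s) :=
    (hca.mul hc'c).integrable_of_hasCompactSupport hac.mul_right
  have i2 : Integrable (fun s => a' s * c s) :=
    (ha'c.mul hcc).integrable_of_hasCompactSupport ha's.mul_right
  have i3 : Integrable (fun s => a s * c s) :=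
    (hca.mul hcc).integrable_of_hasCompactSupport hac.mul_right
  exact integral_mul_deriv_eq_deriv_mul_of_integrable (fun x _ => ha x) (fun x _ => hc x) i1 i2 i3

/-! ### The trial functions -/

/-- The trial functions. -/
noncomputable def trial (g φ : ℝ → ℝ) (b : ℝ) (w : ℝ × ℝ → ℝ) (p : ℝ × ℝ) : ℝ :=
  g p.1 * φ p.2 + b * w p

theorem trial_test {g φ : ℝ → ℝ} (hg : ContDiff ℝ ∞ g) (hgc : HasCompactSupport g)
    (hφ : ContDiff ℝ ∞ φ) (hφc : HasCompactSupport φ) (hw : Test w) (b : ℝ) :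
    Test (trial g φ b w) :=
  (tens_test hg hgc hφ hφc).add (hw.smul b)

theorem TR.trial_d1 {g φ : ℝ → ℝ} (hg : ContDiff ℝ ∞ g) (hgc : HasCompactSupport g)
    (hφ : ContDiff ℝ ∞ φ) (hφc : HasCompactSupport φ) (hw : Test w) (b : ℝ) (p : ℝ × ℝ) :
    d1 (trial g φ b w) p = deriv g p.1 * φ p.2 + b * d1 w p := by
  obtain ⟨s, t⟩ := p
  have h1 := hasDerivAt_1 (trial_test hg hgc hφ hφc hw b).diff s t
  have h2 : HasDerivAt (fun s => g s * φ t + b * w (s, t)) (deriv g s * φ t + b * d1 w (s, t)) s :=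
    (((hg.differentiable (by simp)) s).hasDerivAt.mul_const (φ t)).add
      ((hasDerivAt_1 hw.diff s t).const_mul b)
  exact h1.unique h2

theorem TR.trial_d2 {g φ : ℝ → ℝ} (hg : ContDiff ℝ ∞ g) (hgc : HasCompactSupport g)
    (hφ : ContDiff ℝ ∞ φ) (hφc : HasCompactSupport φ) (hw : Test w) (b : ℝ) (p : ℝ × ℝ) :
    d2 (trial g φ b w) p = g p.1 * deriv φ p.2 + b * d2 w p := by
  obtain ⟨s, t⟩ := p
  have h1 := hasDerivAt_2 (trial_test hg hgc hφ hφc hw b).diff s t
  have h2 : HasDerivAt (fun t => g s * φ t + b * w (s, t)) (g s * deriv φ t + b * d2 w (s, t)) t :=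
    (((hφ.differentiable (by simp)) t).hasDerivAt.const_mul (g s)).add
      ((hasDerivAt_2 hw.diff s t).const_mul b)
  exact h1.unique h2

theorem TR.deriv_odd {φ : ℝ → ℝ} (he : ∀ t, φ (-t) = φ t) (t : ℝ) : deriv φ (-t) = -deriv φ t := by
  have h : deriv (fun x => φ (-x)) t = -deriv φ (-t) := deriv_comp_neg φ t
  have h2 : (fun x => φ (-x)) = φ := funext he
  rw [h2] at h
  linarith

theorem TR.odd_d1 (hw : Test w) (ho : Odd2 w) (s t : ℝ) : d1 w (s, -t) = -d1 w (s, t) := by
  have h1 := hasDerivAt_1 hw.diff s (-t)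
  have h2 := (hasDerivAt_1 hw.diff s t).neg
  have h3 : (fun s => w (s, -t)) = -fun s => w (s, t) := by
    funext s
    exact ho s t
  rw [h3] at h1
  exact h1.unique h2

theorem TR.odd_d2 (hw : Test w) (ho : Odd2 w) (s t : ℝ) : d2 w (s, -t) = d2 w (s, t) := by
  have h1 : HasDerivAt (fun t => w (s, -t)) (-d2 w (s, -t)) t := by
    have h := (hasDerivAt_2 hw.diff s (-t)).scomp t (hasDerivAt_neg t)
    simpa [Function.comp_def] using h
  have h2 : HasDerivAt (fun t => w (s, -t)) (-d2 w (s, t)) t := by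
    have h3 : (fun t => w (s, -t)) = fun t => -w (s, t) := by
      funext t
      exact ho s t
    rw [h3]
    exact (hasDerivAt_2 hw.diff s t).fun_neg
  have := h1.unique h2
  linarith

theorem TR.odd_zero (ho : Odd2 w) (s : ℝ) : w (s, 0) = 0 := by
  have := ho s 0
  rw [neg_zero] at this
  linarith

/-- the ground state representation for odd functions -/
theorem TR.ground1_odd (hw : Test w) (ho : Odd2 w) :
    (∫ p in hp, d2 w p ^ 2) = (∫ p in hp, D w p ^ 2) - N w / 4 := by
  have w2 := hw.test_d2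
  have n1 : Nice (fun p : ℝ × ℝ => d2 w p ^ 2) := w2.nice.sq
  have n2 : Nice (fun p : ℝ × ℝ => Real.sign p.2 * (w p * d2 w p)) :=
    (hw.nice.mul w2.nice).sign_mul
  have n3 : Nice (fun p : ℝ × ℝ => w p ^ 2) := hw.nice.sq
  have I : ∀ {F : ℝ × ℝ → ℝ}, Nice F → Integrable F (volume.restrict hp) :=
    fun h => h.integrableOn hp
  have e : ∀ p : ℝ × ℝ, D w p ^ 2 =
      d2 w p ^ 2 + Real.sign p.2 * (w p * d2 w p) + 1 / 4 * w p ^ 2 := by
    intro p
    obtain ⟨s, t⟩ := p
    have h1 : Real.sign t ^ 2 * w (s, t) ^ 2 = w (s, t) ^ 2 := by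
      rcases eq_or_ne t 0 with rfl | ht
      · rw [odd_zero ho]; ring
      · rcases Real.sign_apply_eq_of_ne_zero t ht with h | h <;> rw [h] <;> ring
    unfold D
    linear_combination (1 / 4) * h1
  have z : ∫ p in hp, Real.sign p.2 * (w p * d2 w p) = 0 := by
    rw [n2.fubini]
    have : ∀ s, ∫ t, Real.sign t * (w (s, t) * d2 w (s, t)) = 0 := by
      intro s
      have h1 : (fun t => Real.sign t * (w (s, t) * d2 w (s, t))) =
          fun t => (fun x => w (s, x) * d2 w (s, x)) |t| := by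
        funext t
        rcases lt_trichotomy t 0 with ht | rfl | ht
        · simp only [Real.sign_of_neg ht, abs_of_neg ht, ho s t, odd_d2 hw ho s t]
          ring
        · simp [odd_zero ho]
        · simp only [Real.sign_of_pos ht, abs_of_pos ht]
          ring
      rw [h1, integral_comp_abs (f := fun x => w (s, x) * d2 w (s, x))]
      have hcs : HasCompactSupport (fun t => w (s, t)) := by
        obtain ⟨L, hL0, hL⟩ := hw.box
        refine HasCompactSupport.intro (isCompact_Icc (a := -L) (b := L)) fun t ht => ?_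
        rw [mem_Icc, ← abs_le] at ht
        exact hL (s, t) (Or.inr (not_le.1 ht))
      have h2 := parts_Ioi (a := fun t => w (s, t)) (c := fun t => w (s, t))
        (a' := fun t => d2 w (s, t)) (c' := fun t => d2 w (s, t))
        (fun t => hasDerivAt_2 hw.diff s t) (fun t => hasDerivAt_2 hw.diff s t) hcs
        (w2.cont.comp (by fun_prop : Continuous fun t : ℝ => (s, t)))
        (w2.cont.comp (by fun_prop : Continuous fun t : ℝ => (s, t)))
      have h3 : ∫ t in Ioi (0 : ℝ), d2 w (s, t) * w (s, t) =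
          ∫ t in Ioi (0 : ℝ), w (s, t) * d2 w (s, t) :=
        integral_congr_ae (Eventually.of_forall fun t => mul_comm _ _)
      rw [h3, odd_zero ho] at h2
      linarith
    simp [this]
  unfold N
  simp only [e]
  rw [integral_add (I (n1.add n2)) (I (n3.const_mul _)), integral_add (I n1) (I n2), z,
    integral_const_mul]
  ring

theorem trial_N {g φ : ℝ → ℝ} (hg : ContDiff ℝ ∞ g) (hgc : HasCompactSupport g)
    (hφ : ContDiff ℝ ∞ φ) (hφc : HasCompactSupport φ) (he : ∀ t, φ (-t) = φ t)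
    (hw : Test w) (ho : Odd2 w) (b : ℝ) :
    N (trial g φ b w) = (∫ s in Ioi (0 : ℝ), g s ^ 2) * (∫ t, φ t ^ 2) + b ^ 2 * N w := by
  have hT := tens_test hg hgc hφ hφc
  have n1 : Nice (fun p : ℝ × ℝ => g p.1 ^ 2 * φ p.2 ^ 2) := by
    have := hT.nice.sq
    simpa only [mul_pow] using this
  have t1 : ∫ p in hp, g p.1 ^ 2 * φ p.2 ^ 2 = (∫ s in Ioi (0 : ℝ), g s ^ 2) * ∫ t, φ t ^ 2 :=
    tens_int (a := fun s => g s ^ 2) (c := fun t => φ t ^ 2) n1
  have n2 : Nice (fun p : ℝ × ℝ => (2 * b) * ((g p.1 * φ p.2) * w p)) :=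
    (hT.nice.mul hw.nice).const_mul _
  have n3 : Nice (fun p : ℝ × ℝ => b ^ 2 * w p ^ 2) := hw.nice.sq.const_mul _
  have e : ∀ p : ℝ × ℝ, trial g φ b w p ^ 2 =
      (g p.1 ^ 2 * φ p.2 ^ 2 + (2 * b) * ((g p.1 * φ p.2) * w p)) + b ^ 2 * w p ^ 2 := by
    intro p
    unfold trial
    ring
  have z2 : ∫ p in hp, (2 * b) * ((g p.1 * φ p.2) * w p) = 0 := by
    refine odd_hp n2 fun s t => ?_
    simp only [he, ho s t]
    ring
  unfold N
  simp only [e]
  rw [integral_add (n1.add n2).integrable.integrableOn n3.integrable.integrableOn,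
    integral_add n1.integrable.integrableOn n2.integrable.integrableOn, t1, z2,
    integral_const_mul, add_zero]

theorem trial_q {g φ : ℝ → ℝ} (hg : ContDiff ℝ ∞ g) (hgc : HasCompactSupport g)
    (hφ : ContDiff ℝ ∞ φ) (hφc : HasCompactSupport φ) (he : ∀ t, φ (-t) = φ t)
    (hw : Test w) (ho : Odd2 w) (b τ : ℝ) :
    q τ (trial g φ b w) + N (trial g φ b w) / 4 =
      (∫ s in Ioi (0 : ℝ), g s ^ 2) * ((∫ t, deriv φ t ^ 2) - φ 0 ^ 2 + (∫ t, φ t ^ 2) / 4) +
      (1 + τ ^ 2) * ((∫ s in Ioi (0 : ℝ), deriv g s ^ 2) * ∫ t, φ t ^ 2) +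
      b ^ 2 * (V w + τ ^ 2 * ∫ p in hp, d1 w p ^ 2) +
      4 * τ * b * (∫ p in hp, deriv g p.1 * deriv φ p.2 * w p) +
      2 * τ * b * g 0 * ∫ t, deriv φ t * w (0, t) := by
  have hg1 : ContDiff ℝ ∞ (deriv g) := (contDiff_infty_iff_deriv.1 hg).2
  have hg1c : HasCompactSupport (deriv g) := hgc.deriv
  have hφ1 : ContDiff ℝ ∞ (deriv φ) := (contDiff_infty_iff_deriv.1 hφ).2
  have hφ1c : HasCompactSupport (deriv φ) := hφc.deriv
  have hgd : ∀ x, HasDerivAt g (deriv g x) x := fun x =>
    ((hg.differentiable (by simp)) x).hasDerivAt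
  have hφd : ∀ x, HasDerivAt φ (deriv φ x) x := fun x =>
    ((hφ.differentiable (by simp)) x).hasDerivAt
  have hdo := deriv_odd he
  have w1 := hw.test_d1
  have w2 := hw.test_d2
  -- tensor products
  have T00 := tens_test hg hgc hφ hφc
  have T10 := tens_test hg1 hg1c hφ hφc
  have T01 := tens_test hg hgc hφ1 hφ1c
  have T11 := tens_test hg1 hg1c hφ1 hφ1c
  -- the pieces of the integrand
  have nA1 : Nice (fun p : ℝ × ℝ => deriv g p.1 ^ 2 * φ p.2 ^ 2) := by
    simpa only [mul_pow] using T10.nice.sq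
  have nA2 : Nice (fun p : ℝ × ℝ => (deriv g p.1 * φ p.2) * d1 w p) := T10.nice.mul w1.nice
  have nA3 : Nice (fun p : ℝ × ℝ => d1 w p ^ 2) := w1.nice.sq
  have nB1 : Nice (fun p : ℝ × ℝ => g p.1 ^ 2 * deriv φ p.2 ^ 2) := by
    simpa only [mul_pow] using T01.nice.sq
  have nB2 : Nice (fun p : ℝ × ℝ => (g p.1 * deriv φ p.2) * d2 w p) := T01.nice.mul w2.nice
  have nB3 : Nice (fun p : ℝ × ℝ => d2 w p ^ 2) := w2.nice.sq
  have nC1 : Nice (fun p : ℝ × ℝ => (deriv g p.1 * φ p.2) * (g p.1 * deriv φ p.2)) :=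
    T10.nice.mul T01.nice
  have nC2 : Nice (fun p : ℝ × ℝ => (deriv g p.1 * φ p.2) * d2 w p) := T10.nice.mul w2.nice
  have nC3 : Nice (fun p : ℝ × ℝ => (g p.1 * deriv φ p.2) * d1 w p) := T01.nice.mul w1.nice
  have nC4 : Nice (fun p : ℝ × ℝ => d1 w p * d2 w p) := w1.nice.mul w2.nice
  have tA1 : ∫ p in hp, deriv g p.1 ^ 2 * φ p.2 ^ 2 =
      (∫ s in Ioi (0 : ℝ), deriv g s ^ 2) * ∫ t, φ t ^ 2 :=
    tens_int (a := fun s => deriv g s ^ 2) (c := fun t => φ t ^ 2) nA1
  have tB1 : ∫ p in hp, g p.1 ^ 2 * deriv φ p.2 ^ 2 =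
      (∫ s in Ioi (0 : ℝ), g s ^ 2) * ∫ t, deriv φ t ^ 2 :=
    tens_int (a := fun s => g s ^ 2) (c := fun t => deriv φ t ^ 2) nB1
  -- integrals which vanish by parity
  have zA2 : ∫ p in hp, (deriv g p.1 * φ p.2) * d1 w p = 0 :=
    odd_hp nA2 fun s t => by simp only [he, odd_d1 hw ho]; ring
  have zB2 : ∫ p in hp, (g p.1 * deriv φ p.2) * d2 w p = 0 :=
    odd_hp nB2 fun s t => by simp only [hdo, odd_d2 hw ho]; ring
  have zC1 : ∫ p in hp, (deriv g p.1 * φ p.2) * (g p.1 * deriv φ p.2) = 0 :=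
    odd_hp nC1 fun s t => by simp only [hdo, he]; ring
  have zC4 : ∫ p in hp, d1 w p * d2 w p = 0 :=
    odd_hp nC4 fun s t => by rw [odd_d1 hw ho, odd_d2 hw ho]; ring
  -- integration by parts
  have nX : Nice (fun p : ℝ × ℝ => (deriv g p.1 * deriv φ p.2) * w p) := T11.nice.mul hw.nice
  have pC2 : ∫ p in hp, (deriv g p.1 * φ p.2) * d2 w p =
      -∫ p in hp, (deriv g p.1 * deriv φ p.2) * w p := by
    rw [nC2.fubini, nX.fubini, ← integral_neg]
    refine integral_congr_ae (Eventually.of_forall fun s => ?_)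
    have h := parts_line (a := φ) (c := fun t => w (s, t)) hφd
      (fun t => hasDerivAt_2 hw.diff s t) hφc hφ1.continuous
      (w2.cont.comp (by fun_prop : Continuous fun t : ℝ => (s, t)))
    calc ∫ t, deriv g s * φ t * d2 w (s, t) = deriv g s * ∫ t, φ t * d2 w (s, t) := by
          rw [← integral_const_mul]
          exact integral_congr_ae (Eventually.of_forall fun t => by simp only; ring)
      _ = deriv g s * -∫ t, deriv φ t * w (s, t) := by rw [h]
      _ = -∫ t, deriv g s * deriv φ t * w (s, t) := by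
          rw [mul_neg, ← integral_const_mul]
          congr 1
          exact integral_congr_ae (Eventually.of_forall fun t => by simp only; ring)
  have pC3 : ∫ p in hp, (g p.1 * deriv φ p.2) * d1 w p =
      -(g 0 * ∫ t, deriv φ t * w (0, t)) - ∫ p in hp, (deriv g p.1 * deriv φ p.2) * w p := by
    have iW : Integrable (fun t => deriv φ t * w (0, t)) :=
      (hφ1.continuous.mul (hw.cont.comp (by fun_prop : Continuous fun t : ℝ => ((0 : ℝ), t)))).integrable_of_hasCompactSupport
        hφ1c.mul_right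
    have iX : Integrable (fun t => ∫ s in Ioi (0 : ℝ), deriv g s * deriv φ t * w (s, t)) := by
      have h := nX.integrableOn hp
      rw [IntegrableOn, restrict_hp] at h
      exact h.integral_prod_right
    have iN : Integrable (fun t => -(g 0 * (deriv φ t * w (0, t)))) := (iW.const_mul (g 0)).neg
    have f1 := nC3.fubini'
    have f2 := nX.fubini'
    simp only at f1 f2
    rw [f1, f2, ← integral_const_mul, ← integral_neg, ← integral_sub iN iX]
    refine integral_congr_ae (Eventually.of_forall fun t => ?_)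
    have h := parts_Ioi (a := g) (c := fun s => w (s, t)) hgd
      (fun s => hasDerivAt_1 hw.diff s t) hgc hg1.continuous
      (w1.cont.comp (by fun_prop : Continuous fun s : ℝ => (s, t)))
    calc ∫ s in Ioi (0 : ℝ), g s * deriv φ t * d1 w (s, t)
        = deriv φ t * ∫ s in Ioi (0 : ℝ), g s * d1 w (s, t) := by
          rw [← integral_const_mul]
          exact integral_congr_ae (Eventually.of_forall fun s => by simp only; ring)
      _ = deriv φ t * (-(g 0 * w (0, t)) - ∫ s in Ioi (0 : ℝ), deriv g s * w (s, t)) := by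
          rw [h]
      _ = -(g 0 * (deriv φ t * w (0, t)))
            - ∫ s in Ioi (0 : ℝ), deriv g s * deriv φ t * w (s, t) := by
          rw [mul_sub, ← integral_const_mul (deriv φ t)]
          congr 1
          · ring
          · exact integral_congr_ae (Eventually.of_forall fun s => by simp only; ring)
  -- the form
  have nD : Nice (fun p => D w p ^ 2) := hw.nice_D.sq
  have eV : V w = (∫ p in hp, d1 w p ^ 2) + ∫ p in hp, D w p ^ 2 := by
    unfold V
    rw [integral_add nA3.integrable.integrableOn nD.integrable.integrableOn]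
  have e0 : ∫ s in Ioi (0 : ℝ), trial g φ b w (s, 0) ^ 2 =
      (∫ s in Ioi (0 : ℝ), g s ^ 2) * φ 0 ^ 2 := by
    rw [← integral_mul_const]
    refine integral_congr_ae (Eventually.of_forall fun s => ?_)
    simp only [trial, odd_zero ho]
    ring
  have hgr := ground1_odd hw ho
  have e2 : ∀ p : ℝ × ℝ, (1 + τ ^ 2) * d1 (trial g φ b w) p ^ 2
      - 2 * τ * (d1 (trial g φ b w) p * d2 (trial g φ b w) p) + d2 (trial g φ b w) p ^ 2 =
      ((1 + τ ^ 2) * (deriv g p.1 ^ 2 * φ p.2 ^ 2)
        + ((1 + τ ^ 2) * (2 * b)) * ((deriv g p.1 * φ p.2) * d1 w p)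
        + ((1 + τ ^ 2) * b ^ 2) * (d1 w p ^ 2))
      + ((g p.1 ^ 2 * deriv φ p.2 ^ 2) + (2 * b) * ((g p.1 * deriv φ p.2) * d2 w p)
        + b ^ 2 * (d2 w p ^ 2))
      + ((-(2 * τ)) * ((deriv g p.1 * φ p.2) * (g p.1 * deriv φ p.2))
        + (-(2 * τ * b)) * ((deriv g p.1 * φ p.2) * d2 w p)
        + (-(2 * τ * b)) * ((g p.1 * deriv φ p.2) * d1 w p)
        + (-(2 * τ * b ^ 2)) * (d1 w p * d2 w p)) := by
    intro p
    rw [trial_d1 hg hgc hφ hφc hw b p, trial_d2 hg hgc hφ hφc hw b p]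
    ring
  have I : ∀ {F : ℝ × ℝ → ℝ}, Nice F → Integrable F (volume.restrict hp) :=
    fun h => h.integrableOn hp
  rw [trial_N hg hgc hφ hφc he hw ho b]
  unfold q
  simp only [e2]
  rw [integral_add (I (((((nA1.const_mul _).add (nA2.const_mul _)).add (nA3.const_mul _))).add
      ((nB1.add (nB2.const_mul _)).add (nB3.const_mul _))))
      (I ((((nC1.const_mul _).add (nC2.const_mul _)).add (nC3.const_mul _)).add (nC4.const_mul _))),
    integral_add (I (((nA1.const_mul _).add (nA2.const_mul _)).add (nA3.const_mul _)))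
      (I ((nB1.add (nB2.const_mul _)).add (nB3.const_mul _))),
    integral_add (I ((nA1.const_mul _).add (nA2.const_mul _))) (I (nA3.const_mul _)),
    integral_add (I (nA1.const_mul _)) (I (nA2.const_mul _)),
    integral_add (I (nB1.add (nB2.const_mul _))) (I (nB3.const_mul _)),
    integral_add (I nB1) (I (nB2.const_mul _)),
    integral_add (I (((nC1.const_mul _).add (nC2.const_mul _)).add (nC3.const_mul _)))
      (I (nC4.const_mul _)),
    integral_add (I ((nC1.const_mul _).add (nC2.const_mul _))) (I (nC3.const_mul _)),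
    integral_add (I (nC1.const_mul _)) (I (nC2.const_mul _))]
  simp only [integral_const_mul]
  rw [tA1, tB1, zA2, zB2, zC1, zC4, pC2, pC3, e0, eV, hgr]
  ring

theorem trial_cross {g φ : ℝ → ℝ} (hg : ContDiff ℝ ∞ g) (hgc : HasCompactSupport g)
    (hφ : ContDiff ℝ ∞ φ) (hφc : HasCompactSupport φ) (hw : Test w) :
    (∫ p in hp, deriv g p.1 * deriv φ p.2 * w p) ^ 2 ≤
      (∫ s in Ioi (0 : ℝ), deriv g s ^ 2) * (∫ t, deriv φ t ^ 2) * N w := by
  have hg1 : ContDiff ℝ ∞ (deriv g) := (contDiff_infty_iff_deriv.1 hg).2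
  have hg1c : HasCompactSupport (deriv g) := hgc.deriv
  have hφ1 : ContDiff ℝ ∞ (deriv φ) := (contDiff_infty_iff_deriv.1 hφ).2
  have hφ1c : HasCompactSupport (deriv φ) := hφc.deriv
  have T11 := tens_test hg1 hg1c hφ1 hφ1c
  have n1 : Nice (fun p : ℝ × ℝ => deriv g p.1 ^ 2 * deriv φ p.2 ^ 2) := by
    simpa only [mul_pow] using T11.nice.sq
  have t1 : ∫ p in hp, deriv g p.1 ^ 2 * deriv φ p.2 ^ 2 =
      (∫ s in Ioi (0 : ℝ), deriv g s ^ 2) * ∫ t, deriv φ t ^ 2 :=
    tens_int (a := fun s => deriv g s ^ 2) (c := fun t => deriv φ t ^ 2) n1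
  have n2 : Nice (fun p : ℝ × ℝ => (deriv g p.1 * deriv φ p.2) * w p) := T11.nice.mul hw.nice
  have n3 : Nice (fun p : ℝ × ℝ => w p ^ 2) := hw.nice.sq
  have I : ∀ {F : ℝ × ℝ → ℝ}, Nice F → Integrable F (volume.restrict hp) :=
    fun h => h.integrableOn hp
  have key : ∀ x : ℝ, 0 ≤ ((∫ s in Ioi (0 : ℝ), deriv g s ^ 2) * ∫ t, deriv φ t ^ 2) * (x * x) +
      (2 * ∫ p in hp, deriv g p.1 * deriv φ p.2 * w p) * x + N w := by
    intro x
    have h0 : 0 ≤ ∫ p in hp, (x * (deriv g p.1 * deriv φ p.2) + w p) ^ 2 :=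
      integral_nonneg fun p => sq_nonneg _
    have e : ∀ p : ℝ × ℝ, (x * (deriv g p.1 * deriv φ p.2) + w p) ^ 2 =
        (x * x) * (deriv g p.1 ^ 2 * deriv φ p.2 ^ 2)
          + (2 * x) * ((deriv g p.1 * deriv φ p.2) * w p) + w p ^ 2 := by
      intro p
      ring
    simp only [e] at h0
    rw [integral_add (I ((n1.const_mul _).add (n2.const_mul _))) (I n3),
      integral_add (I (n1.const_mul _)) (I (n2.const_mul _))] at h0
    simp only [integral_const_mul] at h0
    rw [t1] at h0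
    unfold N
    linarith
  have h := discrim_le_zero key
  unfold discrim at h
  nlinarith

end LeakyWire
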